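import Mathlib

namespace Pool.Agent.Results.MP_61ae3e_pr.NotMono

variable {n : ℕ} (G : SimpleGraph (Fin n)) [DecidableRel G.Adj]

/-- neighbours of `v` of minimum load, provided that load is smaller than the load of `v` -/
def low (X : Fin n → ℕ) (v : Fin n) : Finset (Fin n) :=
  Finset.univ.filter fun u => G.Adj v u ∧ X u < X v ∧ ∀ u', G.Adj v u' → X u ≤ X u'

/-- probability that a ball at `v`, allowed at most `k` moves under the frozen loads `X`,
stops at `w` -/
def walk (X : Fin n → ℕ) : ℕ → Fin n → Fin n → ℚ
  | 0, v, w => if v = w then 1 else 0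
  | k + 1, v, w => if low G X v = ∅ then (if v = w then 1 else 0)
      else (∑ u ∈ low G X v, walk X k u w) / (low G X v).card

/-- probability that the next ball is placed at `w` (each move lowers the load, so a ball born
at `u` makes at most `X u` moves) -/
def place (X : Fin n → ℕ) (w : Fin n) : ℚ := (∑ u, walk G X (X u) u w) / n

/-- probability that the maximum load is at least `l` after `m` further balls, from loads `X` -/
def tail (l : ℕ) : ℕ → (Fin n → ℕ) → ℚ
  | 0, X => if ∃ v, l ≤ X v then 1 else 0
  | m + 1, X => ∑ w, place G X w * tail l m (Function.update X w (X w + 1))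

abbrev St (n : ℕ) := List ((Fin n → ℕ) × ℚ)

def val (l m : ℕ) (L : St n) : ℚ := (L.map fun x => x.2 * tail G l m x.1).sum

def ins (X : Fin n → ℕ) (p : ℚ) : St n → St n
  | [] => [(X, p)]
  | x :: L => if X = x.1 then (x.1, p + x.2) :: L else x :: ins X p L

lemma val_ins (l m : ℕ) (X : Fin n → ℕ) (p : ℚ) (L : St n) :
    val G l m (ins X p L) = p * tail G l m X + val G l m L := by
  induction L with
  | nil => simp [ins, val]
  | cons x L ih =>
    simp only [ins]
    split_ifs with h
    · simp only [val, List.map_cons, List.sum_cons, h]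
      ring
    · simp only [val, List.map_cons, List.sum_cons] at ih ⊢
      rw [ih]
      ring

def one (X : Fin n → ℕ) (p : ℚ) (acc : St n) : List (Fin n) → St n
  | [] => acc
  | w :: ws => if place G X w = 0 then one X p acc ws else
      ins (Function.update X w (X w + 1)) (p * place G X w) (one X p acc ws)

lemma val_one (l m : ℕ) (X : Fin n → ℕ) (p : ℚ) (acc : St n) (ws : List (Fin n)) :
    val G l m (one G X p acc ws) = p * (ws.map fun w =>
      place G X w * tail G l m (Function.update X w (X w + 1))).sum + val G l m acc := by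
  induction ws with
  | nil => simp [one]
  | cons w ws ih =>
    simp only [one, List.map_cons, List.sum_cons]
    split_ifs with h
    · rw [ih, h]; ring
    · rw [val_ins, ih]; ring

def adv : St n → St n
  | [] => []
  | x :: L => one G x.1 x.2 (adv L) (List.finRange n)

lemma val_adv (l m : ℕ) (L : St n) : val G l m (adv G L) = val G l (m + 1) L := by
  induction L with
  | nil => rfl
  | cons x L ih =>
    rw [adv, val_one, ih, ← Fin.sum_univ_def]
    simp only [val, List.map_cons, List.sum_cons, tail]

lemma val_iter (l m : ℕ) (L : St n) : val G l 0 ((adv G)^[m] L) = val G l m L := by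
  have : ∀ k, val G l k ((adv G)^[m] L) = val G l (k + m) L := by
    induction m with
    | zero => simp
    | succ m ih =>
      intro k
      rw [Function.iterate_succ_apply', val_adv, ih]
      congr 1
      ring
  simpa using this 0

lemma tail_eq (l m : ℕ) (X : Fin n → ℕ) :
    tail G l m X = val G l 0 ((adv G)^[m] [(X, 1)]) := by
  rw [val_iter]
  simp [val]

def e1 (a b : Fin 5) : Bool :=
  (a.val, b.val) ∈ [(0, 2), (0, 3), (0, 4), (1, 2), (1, 3), (2, 0), (3, 0), (4, 0), (2, 1), (3, 1)]

def e2 (a b : Fin 5) : Bool := e1 a b || (a.val, b.val) ∈ [(2, 3), (3, 2)]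

def G1 : SimpleGraph (Fin 5) where
  Adj a b := e1 a b = true
  symm := ⟨by decide⟩
  loopless := ⟨by decide⟩

def G2 : SimpleGraph (Fin 5) where
  Adj a b := e2 a b = true
  symm := ⟨by decide⟩
  loopless := ⟨by decide⟩

instance : DecidableRel G1.Adj := fun a b => inferInstanceAs (Decidable (e1 a b = true))
instance : DecidableRel G2.Adj := fun a b => inferInstanceAs (Decidable (e2 a b = true))

lemma v1 : val G1 3 0 ((adv G1)^[7] [(fun _ => 0, 1)]) = 1753 / 234375 := by decide +kernel
lemma v2 : val G2 3 0 ((adv G2)^[7] [(fun _ => 0, 1)]) = 6292 / 703125 := by decide +kernel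

theorem result : ¬ ∀ (n : ℕ) (G G' : SimpleGraph (Fin n)) [DecidableRel G.Adj]
    [DecidableRel G'.Adj], G ≤ G' → ∀ m l : ℕ,
      tail G' l m (fun _ => 0) ≤ tail G l m (fun _ => 0) := by
  intro h
  have h1 := h 5 G1 G2 (fun a b hab => by
    change e2 a b = true
    have : e1 a b = true := hab
    simp [e2, this]) 7 3
  rw [tail_eq, tail_eq, v1, v2] at h1
  norm_num at h1

end Pool.Agent.Results.MP_61ae3e_pr.NotMono
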